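import Pool.Agent.Lib.H78.Transfer

/-!
# A reducible Weyl module of level three in characteristic 23

Question Q1 of MP_c6e3af_al asks whether for every level `l ≥ 1`, every algebraically closed field
of characteristic `p > max (2, 2 l² + l - 3)` and every dominant integral weight
`λ = (l - n) ω_0 + n ω_1` the Weyl module `V(λ)` of the affine Kac-Moody algebra of type `A_1^(1)`
is irreducible.  The answer is no: for `l = 3`, `n = 0` (that is `λ = 3 ω_0`) and `p = 23`, while
`2 l² + l - 3 = 18`, the Weyl module over any field of characteristic `23` has a nonzero proper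
submodule over the hyperalgebra.

The proof: let `φ : L(λ) → ℂ` be the coordinate of the highest weight vector.  There is an element
`x = P(f_0, f_1) v` of the lattice, of weight `λ - 5 α_0 - 4 α_1`, with `P` an integral
noncommutative polynomial with 13 words of length 9, such that `φ (u x) ∈ 23 ℤ` for all `u ∈ U_ℤ`,
`φ (Pᵗ(e_0, e_1) y) ∈ 23 ℤ` for all `y` in the lattice, while
`φ (Pᵗ(e_0, e_1) x) = 66584448 = 23 · 2894976` is not divisible by `23²`.  The first property makes
`1 ⊗ x` generate a submodule on which the reduction of `φ` vanishes, so that it is proper; the other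
two show that `1 ⊗ x ≠ 0`.

The definitions are in `Pool.Agent.Lib.H78.Defs`.
-/

namespace Pool.Agent.Results.MP_c6e3af_al.WeylReducible
open Pool.Agent.Lib.H78

universe u w

/-- Question Q1, for fields in the universe `u`: for every level `l > 0`, every algebraically closed
field `F` of characteristic `p > 2` with `p > 2 l ^ 2 + l - 3` and every
`λ = (l - n) ω_0 + n ω_1`, `0 ≤ n ≤ l`, the Weyl module of the irreducible highest weight module
`(M, v)` with highest weight `λ` is irreducible (not reducible). -/
def Q1 : Prop :=
  ∀ l : ℕ, 0 < l → ∀ (F : Type u) [Field F] [IsAlgClosed F] (p : ℕ) [CharP F p],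
    2 < p → 2 * (l : ℤ) ^ 2 + l - 3 < p → ∀ n : ℕ, n ≤ l →
      ∀ (M : Type) [AddCommGroup M] [Module U M] (v : M),
        IsIrrHighestWeight l n M v → ¬ WeylReducible F M v

/-- Q1 is false, and the Weyl module of highest weight `3 ω_0` over any field of characteristic `23`
is reducible. -/
theorem result :
    ¬ Q1.{u} ∧ ∀ (F : Type u) [Field F] [CharP F 23]
      (M : Type w) [AddCommGroup M] [Module U M] (v : M),
      IsIrrHighestWeight 3 0 M v → WeylReducible F M v := by
  refine ⟨fun h => ?_, fun F _ _ M _ _ v hM => weylReducible M v hM F⟩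
  have : Fact (Nat.Prime 23) := ⟨by norm_num⟩
  have : CharP (ULift.{u} (ZMod 23)) 23 := inferInstance
  have : CharP (AlgebraicClosure (ULift.{u} (ZMod 23))) 23 :=
    charP_of_injective_algebraMap
      (algebraMap (ULift.{u} (ZMod 23)) (AlgebraicClosure (ULift.{u} (ZMod 23)))).injective 23
  exact h 3 (by norm_num) (AlgebraicClosure (ULift.{u} (ZMod 23))) 23
    (by norm_num) (by norm_num) 0 (by norm_num) (L 3 0) (hwVec 3 0) (isIrr_L 3 0)
    (weylReducible (L 3 0) (hwVec 3 0) (isIrr_L 3 0) (AlgebraicClosure (ULift.{u} (ZMod 23))))

end Pool.Agent.Results.MP_c6e3af_al.WeylReducible
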